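import Pool.Agent.H636R2.MT.ALLT

set_option autoImplicit false

namespace Pool.Agent.Results.MP_8c6e6e_an.SharpLowerBound

open MeasureTheory
open scoped ENNReal BigOperators

/-- Normalised Lebesgue measure on the torus `[0,2π)^d` (norms). -/
noncomputable def TP (d : ℕ) : Measure (Fin d → ℝ) :=
  Measure.pi (fun _ : Fin d => ENNReal.ofReal (2 * Real.pi)⁻¹ •
    volume.restrict (Set.Ico 0 (2 * Real.pi)))

/-- Lebesgue measure on `[0,2π)^d` (convolutions). -/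
noncomputable def BX (d : ℕ) : Measure (Fin d → ℝ) :=
  volume.restrict (Set.pi Set.univ fun _ => Set.Ico 0 (2 * Real.pi))

/-- The kernel `1 + 2 ∑_{k ≥ 1} k^(-r) cos(k x - r π/2)` in one variable; the sum of the series is
the limit of its partial sums. -/
noncomputable def F1 (r x : ℝ) : ℝ :=
  Filter.limUnder Filter.atTop (fun N : ℕ =>
    1 + 2 * ∑ k ∈ Finset.range N, ((k:ℝ)+1)^(-r) * Real.cos (((k:ℝ)+1) * x - r * Real.pi / 2))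

/-- The kernel in `d` variables. -/
noncomputable def Fr {d : ℕ} (r : ℝ) (x : Fin d → ℝ) : ℝ := ∏ j, F1 r (x j)

/-- The class `W^r_p` of the functions `F_r * φ`, `‖φ‖_p ≤ 1`. -/
def W (d : ℕ) (r : ℝ) (p : ℝ≥0∞) : Set ((Fin d → ℝ) → ℂ) :=
  {f | ∃ φ : (Fin d → ℝ) → ℂ, MemLp φ p (TP d) ∧ eLpNorm φ p (TP d) ≤ 1 ∧
    f = fun x => ∫ y, (Fr r (x - y) : ℂ) * φ y ∂(BX d)}

/-- Best `m`-term trigonometric approximation of `f` in `L_∞`. -/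
noncomputable def sigma {d : ℕ} (m : ℕ) (f : (Fin d → ℝ) → ℂ) : ℝ≥0∞ :=
  ⨅ (Λ : Finset (Fin d → ℤ)) (_ : Λ.card ≤ m) (c : (Fin d → ℤ) → ℂ),
    eLpNorm (fun x => f x - ∑ k ∈ Λ, c k * Complex.exp (Complex.I * ((∑ j, (k j : ℝ) * x j : ℝ) : ℂ))) ⊤ (TP d)

/-- `σ_m(F)_∞ = sup_{f ∈ F} σ_m(f)_∞`. -/
noncomputable def sigmaC {d : ℕ} (m : ℕ) (F : Set ((Fin d → ℝ) → ℂ)) : ℝ≥0∞ := ⨆ f ∈ F, sigma m f

/-- Lower bound for the best `m`-term approximation of `W^r_p` in `L_∞`, `d ≥ 3`, `p < ∞`. -/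
theorem result (d : ℕ) (hd : 3 ≤ d) (p : ℝ≥0∞) (hp : 1 ≤ p) (hp' : p ≠ ⊤) (r : ℝ) (hr : 0 < r) :
    ∃ c : ℝ, 0 < c ∧ ∀ m : ℕ, 2 ≤ m →
      ENNReal.ofReal (c * ((m:ℝ)^(-r) * (Real.log m)^(r * ((d:ℝ)-1) + 1/2))) ≤ sigmaC m (W d r p) := by
  obtain ⟨P, rfl⟩ : ∃ P : ℝ, p = ENNReal.ofReal P := ⟨p.toReal, (ENNReal.ofReal_toReal hp').symm⟩
  have hP : 1 ≤ P := by
    rw [← ENNReal.ofReal_one] at hp
    by_contra hcon
    exact absurd hp (not_le.2 ((ENNReal.ofReal_lt_ofReal_iff zero_lt_one).2 (not_le.1 hcon)))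
  obtain ⟨c, hc, h⟩ := MtMt.all_fint d hd P r hP hr
  refine ⟨c, hc, fun m hm => ?_⟩
  have h1 := h m hm
  have e1 : W d r (ENNReal.ofReal P) = MtMt.WU d r (ENNReal.ofReal P) := rfl
  have e2 : ∀ (f : (Fin d → ℝ) → ℂ), sigma m f = MtMt.sig m f := by
    intro f
    rfl
  have e3 : sigmaC m (W d r (ENNReal.ofReal P)) = MtMt.sigC m (MtMt.WU d r (ENNReal.ofReal P)) := by
    unfold sigmaC MtMt.sigC
    rw [e1]
    simp only [e2]
  rw [e3]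
  exact h1

end Pool.Agent.Results.MP_8c6e6e_an.SharpLowerBound
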